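import Pool.Agent.Q162.BD.Gz

/-!
Project BD (helper286), job Z2 (helper162).
-/

set_option autoImplicit false

namespace Pool.Agent.Q162.BD

open Complex MeasureTheory Filter Topology Set
open Pool.Agent.Q286.BD

/-! ### the functions `Lam`, `ML` -/

lemma Lam_ge (t : ℝ) : Real.exp 1 ≤ Lam t := by
  unfold Lam
  have h1 : Real.log 16 ≤ Real.log (|t| + 16) := Real.log_le_log (by norm_num) (by linarith [abs_nonneg t])
  have h2 : Real.log 16 = 4 * Real.log 2 := by
    rw [show (16 : ℝ) = 2 ^ 4 by norm_num, Real.log_pow]; norm_num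
  have h3 := Real.log_two_gt_d9
  have h4 := Real.exp_one_lt_d9
  linarith

lemma Lam_ge2 (t : ℝ) : 2.7 ≤ Lam t := by
  have h1 := Lam_ge t
  have h2 := Real.exp_one_gt_d9
  linarith

lemma Lam_pos (t : ℝ) : 0 < Lam t := by linarith [Lam_ge2 t]

lemma logLam_ge (t : ℝ) : 1 ≤ Real.log (Lam t) := by
  rw [← Real.log_exp 1]
  exact Real.log_le_log (Real.exp_pos _) (Lam_ge t)

lemma logLam_le (t : ℝ) : Real.log (Lam t) ≤ Lam t / 2 := by
  have h1 := Real.log_le_sub_one_of_pos (show 0 < Lam t / 2 by linarith [Lam_pos t])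
  rw [Real.log_div (Lam_pos t).ne' two_ne_zero] at h1
  have h3 := Real.log_two_lt_d9
  linarith

lemma ML_ge (t : ℝ) : 2 ≤ ML t := by
  unfold ML
  have h1 := logLam_ge t
  rw [le_div_iff₀ (by linarith)]
  have := logLam_le t
  linarith

lemma ML_le (t : ℝ) : ML t ≤ Lam t := by
  unfold ML
  exact div_le_self (Lam_pos t).le (logLam_ge t)

/-- `1 / log log` -/
noncomputable def v0 (t : ℝ) : ℝ := 1 / Real.log (Lam t)

lemma v0_pos (t : ℝ) : 0 < v0 t := by
  unfold v0
  have := logLam_ge t
  positivity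

lemma v0_le (t : ℝ) : v0 t ≤ 1 := by
  unfold v0
  have := logLam_ge t
  rw [div_le_one (by linarith)]
  exact this

lemma v0_Lam (t : ℝ) : v0 t * Lam t = ML t := by
  unfold v0 ML
  ring

/-! ### comparison of `t` and `t + y` -/

lemma Lam_shift_le {t y : ℝ} (h : |y| ≤ 1 + |t| / 2) : Lam (t + y) ≤ Lam t + 1 := by
  unfold Lam
  have h0 := abs_nonneg t
  have h1 : |t + y| + 16 ≤ (|t| + 16) * Real.exp 1 := by
    have h2 := abs_add_le t y
    have h3 := Real.exp_one_gt_d9
    nlinarith
  have h4 := Real.log_le_log (by positivity) h1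
  rw [Real.log_mul (by positivity) (Real.exp_pos _).ne', Real.log_exp] at h4
  exact h4

lemma Lam_shift_ge {t y : ℝ} (h : |y| ≤ 1 + |t| / 2) : Lam t / 2 ≤ Lam (t + y) := by
  unfold Lam
  have h0 := abs_nonneg t
  have h0' := abs_nonneg (t + y)
  have h2 : |t| ≤ |t + y| + |y| := by
    have := abs_sub (t + y) y
    rwa [add_sub_cancel_right] at this
  have h1 : |t| + 16 ≤ (|t + y| + 16) ^ 2 := by nlinarith
  have h4 := Real.log_le_log (by positivity) h1
  rw [Real.log_pow] at h4
  push_cast at h4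
  linarith

lemma logLam_shift_ge {t y : ℝ} (h : |y| ≤ 1 + |t| / 2) : Real.log (Lam t) / 2 ≤ Real.log (Lam (t + y)) := by
  have h1 := logLam_ge (t + y)
  have h2 : Real.log (Lam t) - Real.log 2 ≤ Real.log (Lam (t + y)) := by
    rw [← Real.log_div (Lam_pos t).ne' two_ne_zero]
    exact Real.log_le_log (by linarith [Lam_pos t]) (Lam_shift_ge h)
  have h3 := Real.log_two_lt_d9
  by_cases hc : Real.log (Lam t) ≤ 2
  · linarith
  · push Not at hc
    linarith

lemma v0_shift {t y : ℝ} (h : |y| ≤ 1 + |t| / 2) : v0 (t + y) ≤ 2 * v0 t := by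
  unfold v0
  have h1 := logLam_ge (t + y)
  have h2 := logLam_ge t
  have h3 := logLam_shift_ge h
  rw [mul_one_div, div_le_div_iff₀ (by linarith) (by linarith)]
  linarith

lemma ML_shift {t y : ℝ} (h : |y| ≤ 1 + |t| / 2) : ML (t + y) ≤ 4 * ML t := by
  unfold ML
  have h1 := logLam_ge (t + y)
  have h2 := logLam_ge t
  have h3 := logLam_shift_ge h
  have h4 := Lam_shift_le h
  have h5 := Lam_ge2 t
  rw [div_le_iff₀ (by linarith), mul_comm 4, mul_assoc, div_mul_eq_mul_div, le_div_iff₀ (by linarith)]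
  nlinarith

/-! ### horizontal and vertical comparison -/

/-- horizontal -/
lemma horiz (hRH : RiemannHypothesis) {C : ℝ} (hC : 0 < C)
    (h : ∀ u v : ℝ, 0 < v → v ≤ 1 → ‖deriv G (pt v u) / G (pt v u)‖ ≤ C * (Lam u + ML u / v))
    {x h' : ℝ} (u : ℝ) (hx : 0 < x) (hxh : x ≤ h') (hh : h' ≤ 1) :
    el h' u - el x u ≤ C * (Lam u * h' + ML u * Real.log (h' / x)) := by
  have hmono : MonotoneOn (fun v : ℝ => C * (Lam u * v + ML u * Real.log v) - el v u) (Icc x h') := by
    have hd : ∀ v : ℝ, 0 < v → HasDerivAt (fun v : ℝ => C * (Lam u * v + ML u * Real.log v) - el v u)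
        (C * (Lam u * 1 + ML u * v⁻¹) - (deriv G (pt v u) / G (pt v u)).re) v := by
      intro v hv
      exact ((((hasDerivAt_id v).const_mul (Lam u)).add ((Real.hasDerivAt_log hv.ne').const_mul (ML u))).const_mul C).sub
        (el_deriv_v hRH u hv)
    apply monotoneOn_of_deriv_nonneg (convex_Icc x h')
    · intro v hv
      exact (hd v (lt_of_lt_of_le hx hv.1)).continuousAt.continuousWithinAt
    · intro v hv
      rw [interior_Icc] at hv
      exact (hd v (hx.trans hv.1)).differentiableAt.differentiableWithinAt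
    · intro v hv
      rw [interior_Icc] at hv
      have hv0 : 0 < v := hx.trans hv.1
      rw [(hd v hv0).deriv]
      have h1 := h u v hv0 (hv.2.le.trans hh)
      have h2 := (Complex.abs_re_le_norm (deriv G (pt v u) / G (pt v u)))
      have h3 := le_abs_self (deriv G (pt v u) / G (pt v u)).re
      have h4 : C * (Lam u * 1 + ML u * v⁻¹) = C * (Lam u + ML u / v) := by rw [mul_one, div_eq_mul_inv]
      linarith
  have h1 := hmono (left_mem_Icc.2 hxh) (right_mem_Icc.2 hxh) hxh
  simp only at h1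
  rw [Real.log_div (hx.trans_le hxh).ne' hx.ne']
  have h2 : 0 ≤ C * (Lam u * x) := by
    have := Lam_pos u
    positivity
  nlinarith

/-- vertical -/
lemma verti (hRH : RiemannHypothesis) {C M : ℝ}
    (h : ∀ u v : ℝ, 0 < v → v ≤ 1 → ‖deriv G (pt v u) / G (pt v u)‖ ≤ C * (Lam u + ML u / v))
    {v : ℝ} (hv : 0 < v) (hv1 : v ≤ 1) (u1 u2 : ℝ) (hM : ∀ u ∈ uIcc u1 u2, C * (Lam u + ML u / v) ≤ M) :
    |el v u2 - el v u1| ≤ M * |u2 - u1| := by
  have h1 := Convex.norm_image_sub_le_of_norm_hasDerivWithin_le (f := fun u => el v u)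
    (f' := fun u => (deriv G (pt v u) * I / G (pt v u)).re) (s := uIcc u1 u2) (x := u1) (y := u2) (C := M)
    (fun u hu => (el_deriv_u hRH u hv).hasDerivWithinAt) ?_ (convex_uIcc u1 u2) left_mem_uIcc right_mem_uIcc
  · simpa using h1
  · intro u hu
    rw [Real.norm_eq_abs]
    refine (Complex.abs_re_le_norm _).trans ?_
    have e : deriv G (pt v u) * I / G (pt v u) = I * (deriv G (pt v u) / G (pt v u)) := by ring
    rw [e, norm_mul, Complex.norm_I, one_mul]
    exact (h u v hv hv1).trans (hM u hu)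

lemma zeta_norm {v u : ℝ} (h : pt v u ≠ 1) : ‖riemannZeta (pt v u)‖ * ‖pt v u - 1‖ = ‖G (pt v u)‖ := by
  rw [G_ne h, norm_mul, mul_comm]

lemma zeta_pos (hRH : RiemannHypothesis) {v : ℝ} (u : ℝ) (hv : 0 < v) : 0 < ‖riemannZeta (pt v u)‖ := by
  apply norm_pos_iff.2
  by_cases h : pt v u = 1
  · rw [h]; exact riemannZeta_one_ne_zero
  · exact zeta_ne hRH (by rw [pt_re]; linarith) h

/-- lower bound to the right of the line, in the form used below -/
theorem lowz (h1 : S_LD) (h2 : S_far) (h3 : S_far') (hRH : RiemannHypothesis) : ∃ C : ℝ, 0 < C ∧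
    ∀ u x : ℝ, 0 < x → x ≤ 1 → Real.exp (-(C * ML u * (1 + Real.log (1 + v0 u / x)))) ≤ ‖riemannZeta (pt x u)‖ := by
  obtain ⟨C1, hC1, h1'⟩ := LDG h1 hRH
  obtain ⟨C2, hC2, h2'⟩ := h2 hRH
  obtain ⟨C3, hC3, h3'⟩ := h3 hRH
  have hz1 : 0 < ‖riemannZeta 1‖ := norm_pos_iff.2 riemannZeta_one_ne_zero
  obtain ⟨K, hK⟩ : ∃ K : ℝ, K = |Real.log ‖riemannZeta 1‖| := ⟨_, rfl⟩
  have hK0 : 0 ≤ K := by rw [hK]; exact abs_nonneg _
  refine ⟨K + 2 * C1 + 3 * C2 + C3 + 2, by positivity, ?_⟩
  intro u x hx hx1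
  obtain ⟨q, hq⟩ : ∃ q : ℝ, q = Real.log (1 + v0 u / x) := ⟨_, rfl⟩
  have hq0 : 0 ≤ q := by
    rw [hq]
    apply Real.log_nonneg
    have : 0 ≤ v0 u / x := div_nonneg (v0_pos u).le hx.le
    linarith
  rw [← hq]
  have hML := ML_ge u
  have hbig : ∀ c : ℝ, 0 ≤ c → c ≤ (K + 2 * C1 + 3 * C2 + C3 + 2) → ∀ z : ℝ, z ≤ ML u * (1 + q) → 0 ≤ z →
      c * z ≤ (K + 2 * C1 + 3 * C2 + C3 + 2) * ML u * (1 + q) := by
    intro c hc hcc z hz hz0
    calc c * z ≤ (K + 2 * C1 + 3 * C2 + C3 + 2) * (ML u * (1 + q)) := mul_le_mul hcc hz hz0 (by positivity)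
      _ = _ := by ring
  have hMq : 1 ≤ ML u * (1 + q) := by nlinarith
  by_cases hone : pt x u = 1
  · rw [hone, ← Real.le_log_iff_exp_le hz1, neg_le]
    have e1 : -Real.log ‖riemannZeta 1‖ ≤ K * 1 := by rw [hK, mul_one]; exact neg_le_abs _
    exact e1.trans (hbig K hK0 (by linarith) 1 hMq zero_le_one)
  · have hzp := zeta_pos hRH u hx
    rw [← Real.le_log_iff_exp_le hzp, neg_le]
    -- compare with the height `h' = max x (v0 u)`
    obtain ⟨h', hh'⟩ : ∃ h' : ℝ, h' = max x (v0 u) := ⟨_, rfl⟩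
    have hh1 : h' ≤ 1 := by rw [hh']; exact max_le hx1 (v0_le u)
    have hxh : x ≤ h' := by rw [hh']; exact le_max_left _ _
    have hvh : v0 u ≤ h' := by rw [hh']; exact le_max_right _ _
    have hh0 : 0 < h' := hx.trans_le hxh
    have hH : el h' u - el x u ≤ C1 * (2 * ML u + ML u * q) := by
      rcases le_total x (v0 u) with hc | hc
      · have e0 : h' = v0 u := by rw [hh', max_eq_right hc]
        have e1 := horiz hRH hC1 h1' u hx hxh hh1
        refine e1.trans ?_
        apply mul_le_mul_of_nonneg_left _ hC1.le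
        have e2 : Lam u * h' = ML u := by rw [e0, mul_comm, v0_Lam]
        have e3 : Real.log (h' / x) ≤ q := by
          rw [hq, e0]
          apply Real.log_le_log (div_pos (v0_pos u) hx)
          linarith
        rw [e2]
        have e4 : ML u * Real.log (h' / x) ≤ ML u * q := mul_le_mul_of_nonneg_left e3 (by linarith)
        linarith
      · have e0 : h' = x := by rw [hh', max_eq_left hc]
        rw [e0, sub_self]
        positivity
    -- lower bound at height h'
    have hlogz : Real.log ‖riemannZeta (pt x u)‖ = el x u - Real.log ‖pt x u - 1‖ := by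
      have e1 := zeta_norm hone
      have e2 : 0 < ‖pt x u - 1‖ := norm_pos_iff.2 (sub_ne_zero.2 hone)
      unfold el
      rw [← e1, Real.log_mul hzp.ne' e2.ne']
      ring
    rw [hlogz]
    rcases le_or_gt 1 |u| with hu | hu
    · -- `|u| ≥ 1`
      have hne : pt h' u ≠ 1 := by
        intro e
        have := (pt_eq_one e).2
        rw [this, abs_zero] at hu
        linarith
      have e1 := h3' u h' hu hvh hh1
      have e2 := (abs_le.1 e1).1
      have hlogz' : el h' u = Real.log ‖riemannZeta (pt h' u)‖ + Real.log ‖pt h' u - 1‖ := by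
        have e3 := zeta_norm hne
        have e4 : 0 < ‖pt h' u - 1‖ := norm_pos_iff.2 (sub_ne_zero.2 hne)
        unfold el
        rw [← e3, Real.log_mul (zeta_pos hRH u hh0).ne' e4.ne']
      have e5 : Real.log ‖pt x u - 1‖ ≤ Real.log ‖pt h' u - 1‖ + Real.log 2 := by
        have e6 : 0 < ‖pt h' u - 1‖ := norm_pos_iff.2 (sub_ne_zero.2 hne)
        have e7 : 0 < ‖pt x u - 1‖ := norm_pos_iff.2 (sub_ne_zero.2 hone)
        rw [← Real.log_mul e6.ne' two_ne_zero]
        apply Real.log_le_log e7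
        have e8 : ‖pt x u - 1‖ ≤ ‖pt h' u - 1‖ + |x - h'| := by
          have : pt x u - 1 = (pt h' u - 1) + ((x - h' : ℝ) : ℂ) := by unfold pt; push_cast; ring
          rw [this]
          refine (norm_add_le _ _).trans ?_
          rw [Complex.norm_real, Real.norm_eq_abs]
        have e9 : |u| ≤ ‖pt h' u - 1‖ := by
          have := Complex.abs_im_le_norm (pt h' u - 1)
          rw [Complex.sub_im, pt_im, Complex.one_im, sub_zero] at this
          exact this
        have e10 : |x - h'| ≤ 1 := by rw [abs_le]; constructor <;> linarith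
        linarith
      have e11 := Real.log_two_lt_d9
      have e12 : Real.log ‖riemannZeta (pt h' u)‖ = Real.log ‖riemannZeta (1 / 2 + h' + u * I)‖ := rfl
      have e13 : C1 * (2 * ML u + ML u * q) + C3 * ML u + 1 ≤ (K + 2 * C1 + 3 * C2 + C3 + 2) * ML u * (1 + q) := by
        have f1 : 0 ≤ ML u * q := by positivity
        have f2 : 0 ≤ K * (ML u * (1 + q)) := by positivity
        have f3 : 0 ≤ C2 * (ML u * (1 + q)) := by positivity
        have f4 : 0 ≤ C1 * (ML u * q) := by positivity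
        have f5 : 0 ≤ C3 * (ML u * q) := by positivity
        nlinarith
      rw [e12] at hlogz'
      linarith
    · -- `|u| < 1`
      have e1 : |el h' u| ≤ C2 * (ML u + Real.log (|u| + 2)) := by
        by_cases hne : pt h' u = 1
        · unfold el
          rw [hne, G_one, norm_one, Real.log_one, abs_zero]
          have : 0 ≤ Real.log (|u| + 2) := Real.log_nonneg (by linarith [abs_nonneg u])
          positivity
        · have e2 := h2' u h' hvh hh1 hne
          have e3 : el h' u = Real.log (‖riemannZeta (1 / 2 + h' + u * I)‖ * ‖(-1 / 2 + h' + u * I : ℂ)‖) := by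
            unfold el
            rw [← zeta_norm hne, pt_sub_one]
            rfl
          rw [e3]
          exact e2
      have e2 : Real.log (|u| + 2) ≤ 2 := by
        have := Real.log_le_sub_one_of_pos (show 0 < |u| + 2 by positivity)
        linarith
      have e3 : Real.log ‖pt x u - 1‖ ≤ 1 := by
        have f1 : ‖pt x u - 1‖ ≤ 2 := by
          have f2 := Complex.norm_le_abs_re_add_abs_im (pt x u - 1)
          rw [Complex.sub_re, Complex.sub_im, pt_re, pt_im, Complex.one_re, Complex.one_im, sub_zero] at f2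
          have f3 : |1 / 2 + x - 1| ≤ 1 := by rw [abs_le]; constructor <;> linarith
          linarith
        have f2 : 0 < ‖pt x u - 1‖ := norm_pos_iff.2 (sub_ne_zero.2 hone)
        have f3 := Real.log_le_sub_one_of_pos f2
        linarith
      have e4 := (abs_le.1 e1).1
      have e5 : C2 * (ML u + Real.log (|u| + 2)) ≤ C2 * (2 * ML u) := mul_le_mul_of_nonneg_left (by linarith) hC2.le
      have e6 : C1 * (2 * ML u + ML u * q) + C2 * (2 * ML u) + 1 ≤ (K + 2 * C1 + 3 * C2 + C3 + 2) * ML u * (1 + q) := by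
        have f1 : 0 ≤ ML u * q := by positivity
        have f2 : 0 ≤ K * (ML u * (1 + q)) := by positivity
        have f3 : 0 ≤ C3 * (ML u * (1 + q)) := by positivity
        have f4 : 0 ≤ C1 * (ML u * q) := by positivity
        have f5 : 0 ≤ C2 * (ML u * q) := by positivity
        have f6 : 0 ≤ C2 * ML u := by positivity
        nlinarith
      linarith

end Pool.Agent.Q162.BD
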