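import Pool.Agent.Q286.BD.Spec

/-!
Project BD (helper286), job Z2: `(s-1) ζ(s)` and its logarithm along horizontal and vertical lines (helper162).
-/

set_option autoImplicit false

namespace Pool.Agent.Q162.BD

open Complex MeasureTheory Filter Topology Set
open Pool.Agent.Q286.BD

/-- `(s-1) ζ(s)`, entire -/
noncomputable def G : ℂ → ℂ := Function.update (fun s => (s - 1) * riemannZeta s) 1 1

lemma G_ne {s : ℂ} (hs : s ≠ 1) : G s = (s - 1) * riemannZeta s := by
  unfold G; rw [Function.update_of_ne hs]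

lemma G_one : G 1 = 1 := by unfold G; simp

lemma G_ev {s : ℂ} (hs : s ≠ 1) : G =ᶠ[𝓝 s] fun s => (s - 1) * riemannZeta s := by
  filter_upwards [isOpen_ne.mem_nhds hs] with z hz
  exact G_ne hz

lemma G_diff : Differentiable ℂ G := by
  have h0 : ∀ s : ℂ, s ≠ 1 → DifferentiableAt ℂ G s := by
    intro s hs
    exact ((differentiableAt_id.sub_const 1).mul (differentiableAt_riemannZeta hs)).congr_of_eventuallyEq (G_ev hs)
  intro s
  rcases eq_or_ne s 1 with rfl | hs
  · apply AnalyticAt.differentiableAt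
    apply Complex.analyticAt_of_differentiable_on_punctured_nhds_of_continuousAt
    · filter_upwards [self_mem_nhdsWithin] with z hz
      exact h0 z hz
    · unfold G
      rw [continuousAt_update_same]
      exact riemannZeta_residue_one
  · exact h0 s hs

lemma zeta_ne (hRH : RiemannHypothesis) {s : ℂ} (hs : 1 / 2 < s.re) (h1 : s ≠ 1) : riemannZeta s ≠ 0 := by
  intro h
  have h2 := hRH s h (by
    rintro ⟨n, hn⟩
    rw [hn] at hs
    simp at hs
    have : (0 : ℝ) ≤ n := Nat.cast_nonneg _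
    linarith) h1
  rw [h2] at hs
  exact lt_irrefl _ hs

lemma G_ne_zero (hRH : RiemannHypothesis) {s : ℂ} (hs : 1 / 2 < s.re) : G s ≠ 0 := by
  rcases eq_or_ne s 1 with rfl | h
  · rw [G_one]; exact one_ne_zero
  · rw [G_ne h]
    exact mul_ne_zero (sub_ne_zero.2 h) (zeta_ne hRH hs h)

lemma logDeriv_G {s : ℂ} (hs : s ≠ 1) (hz : riemannZeta s ≠ 0) :
    deriv G s / G s = deriv riemannZeta s / riemannZeta s + 1 / (s - 1) := by
  have h1 : deriv G s = riemannZeta s + (s - 1) * deriv riemannZeta s := by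
    rw [(G_ev hs).deriv_eq]
    have h2 : HasDerivAt (fun s : ℂ => (s - 1) * riemannZeta s) (1 * riemannZeta s + (s - 1) * deriv riemannZeta s) s :=
      ((hasDerivAt_id s).sub_const 1).mul (differentiableAt_riemannZeta hs).hasDerivAt
    rw [h2.deriv, one_mul]
  have h3 : s - 1 ≠ 0 := sub_ne_zero.2 hs
  rw [h1, G_ne hs]
  field_simp
  ring

/-- the point `1/2 + v + i u` -/
noncomputable def pt (v u : ℝ) : ℂ := 1 / 2 + v + u * I

lemma pt_re (v u : ℝ) : (pt v u).re = 1 / 2 + v := by unfold pt; simp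

lemma pt_im (v u : ℝ) : (pt v u).im = u := by unfold pt; simp

lemma pt_sub_one (v u : ℝ) : pt v u - 1 = -1 / 2 + v + u * I := by unfold pt; ring

lemma pt_eq_one {v u : ℝ} (h : pt v u = 1) : v = 1 / 2 ∧ u = 0 := by
  have h1 := pt_re v u
  have h2 := pt_im v u
  rw [h] at h1 h2
  simp at h1 h2
  constructor
  · linarith
  · exact h2.symm

/-- derivative of `log |f|` -/
lemma hasDerivAt_log_norm {f : ℝ → ℂ} {f' : ℂ} {v : ℝ} (h : HasDerivAt f f' v) (h0 : f v ≠ 0) :
    HasDerivAt (fun x => Real.log ‖f x‖) ((f' / f v).re) v := by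
  have h1 : HasDerivAt (fun x => f x / f v) (f' / f v) v := h.div_const _
  have h2 : f v / f v ∈ slitPlane := by rw [div_self h0]; exact one_mem_slitPlane
  have h3 := h1.clog_real h2
  rw [div_self h0, div_one] at h3
  have h4 : HasDerivAt (fun x => (Complex.log (f x / f v)).re + Real.log ‖f v‖) ((f' / f v).re) v := by
    have := Complex.reCLM.hasFDerivAt.comp_hasDerivAt v h3
    exact this.add_const _
  refine h4.congr_of_eventuallyEq ?_
  filter_upwards [h.continuousAt.eventually_ne h0] with x hx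
  rw [Complex.log_re, norm_div, Real.log_div (norm_ne_zero_iff.2 hx) (norm_ne_zero_iff.2 h0)]
  ring

/-- `log |G|` -/
noncomputable def el (v u : ℝ) : ℝ := Real.log ‖G (pt v u)‖

lemma el_exp (hRH : RiemannHypothesis) {v : ℝ} (u : ℝ) (hv : 0 < v) : Real.exp (el v u) = ‖G (pt v u)‖ := by
  unfold el
  rw [Real.exp_log]
  exact norm_pos_iff.2 (G_ne_zero hRH (by rw [pt_re]; linarith))

lemma el_deriv_v (hRH : RiemannHypothesis) {v : ℝ} (u : ℝ) (hv : 0 < v) :
    HasDerivAt (fun v => el v u) ((deriv G (pt v u) / G (pt v u)).re) v := by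
  have h1 : HasDerivAt (fun v : ℝ => pt v u) 1 v := by
    unfold pt
    have : HasDerivAt (fun v : ℝ => (v : ℂ)) 1 v := Complex.ofRealCLM.hasDerivAt
    exact (this.const_add (1 / 2)).add_const _
  have h2 : HasDerivAt (fun v : ℝ => G (pt v u)) (deriv G (pt v u) * 1) v :=
    (G_diff (pt v u)).hasDerivAt.comp v h1
  rw [mul_one] at h2
  exact hasDerivAt_log_norm h2 (G_ne_zero hRH (by rw [pt_re]; linarith))

lemma el_deriv_u (hRH : RiemannHypothesis) {v : ℝ} (u : ℝ) (hv : 0 < v) :
    HasDerivAt (fun u => el v u) ((deriv G (pt v u) * I / G (pt v u)).re) u := by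
  have h1 : HasDerivAt (fun u : ℝ => pt v u) I u := by
    unfold pt
    have : HasDerivAt (fun v : ℝ => (v : ℂ)) 1 u := Complex.ofRealCLM.hasDerivAt
    have h := (this.mul_const I).const_add (1 / 2 + (v : ℂ))
    rwa [one_mul] at h
  have h2 : HasDerivAt (fun u : ℝ => G (pt v u)) (deriv G (pt v u) * I) u :=
    (G_diff (pt v u)).hasDerivAt.comp u h1
  exact hasDerivAt_log_norm h2 (G_ne_zero hRH (by rw [pt_re]; linarith))

/-- the logarithmic derivative, everywhere -/
theorem LDG (h : S_LD) (hRH : RiemannHypothesis) : ∃ C : ℝ, 0 < C ∧ ∀ u v : ℝ, 0 < v → v ≤ 1 →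
    ‖deriv G (pt v u) / G (pt v u)‖ ≤ C * (Lam u + ML u / v) := by
  obtain ⟨C, hC, h1⟩ := h hRH
  refine ⟨C, hC, ?_⟩
  have h2 : ∀ u v : ℝ, 0 < v → v ≤ 1 → pt v u ≠ 1 → ‖deriv G (pt v u) / G (pt v u)‖ ≤ C * (Lam u + ML u / v) := by
    intro u v hv hv1 hne
    rw [logDeriv_G hne (zeta_ne hRH (by rw [pt_re]; linarith) hne), pt_sub_one]
    exact h1 u v hv hv1
  intro u v hv hv1
  by_cases hne : pt v u = 1
  · obtain ⟨rfl, rfl⟩ := pt_eq_one hne
    have hc : ContinuousAt (fun v : ℝ => ‖deriv G (pt v 0) / G (pt v 0)‖) (1 / 2) := by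
      have c1 : Continuous (fun v : ℝ => pt v 0) := by unfold pt; fun_prop
      have c2 : Continuous (deriv G) := G_diff.contDiff.continuous_deriv le_rfl
      have c3 : Continuous G := G_diff.continuous
      exact ((c2.comp c1).continuousAt.div (c3.comp c1).continuousAt
        (G_ne_zero hRH (by rw [pt_re]; norm_num))).norm
    have hc2 : ContinuousAt (fun v : ℝ => C * (Lam 0 + ML 0 / v)) (1 / 2) := by
      apply ContinuousAt.const_mul
      apply ContinuousAt.const_add
      exact continuousAt_const.div continuousAt_id (by norm_num)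
    refine le_of_tendsto_of_tendsto (hc.tendsto.mono_left (nhdsWithin_le_nhds (s := {(1 / 2 : ℝ)}ᶜ)))
      (hc2.tendsto.mono_left (nhdsWithin_le_nhds (s := {(1 / 2 : ℝ)}ᶜ))) ?_
    have e1 : ∀ᶠ v in 𝓝[≠] (1 / 2 : ℝ), v ∈ Ioo (0 : ℝ) 1 :=
      nhdsWithin_le_nhds (Ioo_mem_nhds (by norm_num) (by norm_num))
    filter_upwards [e1, self_mem_nhdsWithin] with v hv hv2
    apply h2 0 v hv.1 hv.2.le
    intro h3
    exact hv2 (pt_eq_one h3).1
  · exact h2 u v hv hv1 hne

end Pool.Agent.Q162.BD
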