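import Pool.Agent.Q162.BD.Ztwo

/-!
Project BD (helper286), job Z2: the theorems (helper162).
-/

set_option autoImplicit false

namespace Pool.Agent.Q162.BD

open Complex MeasureTheory Filter Topology Set
open Pool.Agent.Q286.BD

lemma cl_ne_one (t : ℝ) : cl t ≠ 1 := by
  intro h
  have := congrArg Complex.re h
  unfold cl at this
  simp at this

/-- **Z2 (c)** -/
theorem upz (_h1 : S_LD) (_h2 : S_far) (h3 : S_far') (h4 : S_mono) : S_upz := by
  intro hRH
  obtain ⟨C3, hC3, h3'⟩ := h3 hRH
  obtain ⟨C4, hC4, h4'⟩ := h4 hRH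
  have hcont : Continuous (fun t : ℝ => ‖riemannZeta (cl t)‖) := by
    apply Continuous.norm
    rw [continuous_iff_continuousAt]
    intro t
    have c1 : Continuous (fun t : ℝ => cl t) := by unfold cl; fun_prop
    exact ContinuousAt.comp (f := fun t : ℝ => cl t) (g := riemannZeta) (differentiableAt_riemannZeta (cl_ne_one t)).continuousAt c1.continuousAt
  obtain ⟨K, hK⟩ := (isCompact_Icc (a := (-1 : ℝ)) (b := 1)).bddAbove_image hcont.continuousOn
  have hK' : ∀ t : ℝ, |t| ≤ 1 → ‖riemannZeta (cl t)‖ ≤ K := by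
    intro t ht
    exact hK ⟨t, ⟨(abs_le.1 ht).1, (abs_le.1 ht).2⟩, rfl⟩
  refine ⟨|K| + C3 + C4 + 1, by positivity, ?_⟩
  intro t
  have hML := ML_ge t
  rcases le_total |t| 1 with ht | ht
  · refine (hK' t ht).trans ?_
    have e1 : K ≤ Real.exp |K| := by
      have := Real.add_one_le_exp |K|
      linarith [le_abs_self K]
    refine e1.trans (Real.exp_le_exp.2 ?_)
    have := abs_nonneg K
    nlinarith
  · have e1 := h4' t (v0 t) (v0_pos t) (v0_le t)
    rw [v0_Lam] at e1
    have e2 := h3' t (v0 t) ht le_rfl (v0_le t)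
    have hne : pt (v0 t) t ≠ 1 := by
      intro e
      have := (pt_eq_one e).2
      rw [this, abs_zero] at ht
      linarith
    have e3 : ‖riemannZeta (1 / 2 + (v0 t : ℝ) + t * I)‖ ≤ Real.exp (C3 * ML t) := by
      have hp : 0 < ‖riemannZeta (1 / 2 + (v0 t : ℝ) + t * I)‖ := zeta_pos hRH t (v0_pos t)
      rw [← Real.log_le_iff_le_exp hp]
      exact (le_abs_self _).trans e2
    have e4 : C4 ≤ Real.exp C4 := by
      have := Real.add_one_le_exp C4
      linarith
    calc ‖riemannZeta (cl t)‖ ≤ C4 * Real.exp (ML t) * ‖riemannZeta (1 / 2 + (v0 t : ℝ) + t * I)‖ := e1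
      _ ≤ Real.exp C4 * Real.exp (ML t) * Real.exp (C3 * ML t) := by gcongr
      _ = Real.exp (C4 + ML t + C3 * ML t) := by rw [Real.exp_add, Real.exp_add]
      _ ≤ _ := by
        apply Real.exp_le_exp.2
        have := abs_nonneg K
        nlinarith

/-- **Z2 (b)** -/
theorem lowb (h1 : S_LD) (h2 : S_far) (h3 : S_far') (_h4 : S_mono) : S_lowb := by
  intro hRH
  obtain ⟨C, hC, h⟩ := lowz h1 h2 h3 hRH
  refine ⟨2 * C, by positivity, ?_⟩
  intro u x hx hx1
  refine le_trans (Real.exp_le_exp.2 ?_) (h u x hx hx1)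
  apply neg_le_neg
  have hv := v0_le u
  have hv' := (v0_pos u).le
  have e0 : 1 ≤ 1 / x := by rw [le_div_iff₀ hx]; linarith
  have e1 : Real.log (1 + v0 u / x) ≤ Real.log (2 + 1 / x) := by
    apply Real.log_le_log
    · have : 0 ≤ v0 u / x := by positivity
      linarith
    · have : v0 u / x ≤ 1 / x := div_le_div_of_nonneg_right hv hx.le
      linarith
  have e2 : 1 ≤ Real.log (2 + 1 / x) := by
    rw [Real.le_log_iff_exp_le (by positivity)]
    have := Real.exp_one_lt_d9
    linarith
  have e3 := ML_le u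
  have e4 := ML_ge u
  calc C * ML u * (1 + Real.log (1 + v0 u / x)) ≤ C * Lam u * (2 * Real.log (2 + 1 / x)) := by
        apply mul_le_mul
        · exact mul_le_mul_of_nonneg_left e3 hC.le
        · linarith
        · have : 0 ≤ Real.log (1 + v0 u / x) := Real.log_nonneg (by have : 0 ≤ v0 u / x := by positivity
                                                                    linarith)
          linarith
        · exact mul_nonneg hC.le (Lam_pos u).le
    _ = _ := by ring

/-- **Z2 (a)** -/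
theorem ratio (h1 : S_LD) (h2 : S_far) (h3 : S_far') (h4 : S_mono) : S_ratio := by
  intro hRH
  obtain ⟨C1, hC1, h1'⟩ := LDG h1 hRH
  obtain ⟨Cl, hCl, hl⟩ := lowz h1 h2 h3 hRH
  obtain ⟨Cu, hCu, hu⟩ := upz h1 h2 h3 h4 hRH
  obtain ⟨C4, hC4, h4'⟩ := h4 hRH
  refine ⟨3 * C4 + 2 + 18 * C1 + 2 * Cu + 28 * Cl, by positivity, ?_⟩
  intro t y x hx hx1 hy
  obtain ⟨q, hq⟩ : ∃ q : ℝ, q = Real.log (2 + |y| / x) := ⟨_, rfl⟩
  rw [← hq]
  have hyx : 0 ≤ |y| / x := div_nonneg (abs_nonneg _) hx.le
  have hl2 := Real.log_two_gt_d9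
  have hl2' := Real.log_two_lt_d9
  have hq1 : Real.log 2 ≤ q := by
    rw [hq]
    apply Real.log_le_log (by norm_num)
    linarith
  have hML := ML_ge t
  have hMq : 1 ≤ ML t * q := by nlinarith
  have hMq2 : ML t ≤ 2 * (ML t * q) := by nlinarith
  have hcast : (1 / 2 + x + (t + y) * I : ℂ) = pt x (t + y) := by
    unfold pt; push_cast; ring
  rw [hcast]
  obtain ⟨w, hw⟩ : ∃ w : ℝ, w = min (v0 t) (1 / 4) := ⟨_, rfl⟩
  have hw1 : v0 t / 4 ≤ w := by
    rw [hw]
    apply le_min
    · linarith [v0_pos t]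
    · linarith [v0_le t]
  have hPpos := zeta_pos hRH (t + y) hx
  rcases le_or_gt (max x |y|) w with hc | hc
  · -- both small
    obtain ⟨h', hh'⟩ : ∃ h' : ℝ, h' = max x |y| := ⟨_, rfl⟩
    rw [← hh'] at hc
    have hxh : x ≤ h' := by rw [hh']; exact le_max_left _ _
    have hyh : |y| ≤ h' := by rw [hh']; exact le_max_right _ _
    have hh4 : h' ≤ 1 / 4 := hc.trans (by rw [hw]; exact min_le_right _ _)
    have hhv : h' ≤ v0 t := hc.trans (by rw [hw]; exact min_le_left _ _)
    have hh0 : 0 < h' := hx.trans_le hxh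
    have hQ : pt h' t ≠ 1 := by
      intro e
      have := (pt_eq_one e).1
      linarith
    have hP : pt x (t + y) ≠ 1 := by
      intro e
      have := (pt_eq_one e).1
      linarith
    have hQp : 0 < ‖pt h' t - 1‖ := norm_pos_iff.2 (sub_ne_zero.2 hQ)
    have hPp : 0 < ‖pt x (t + y) - 1‖ := norm_pos_iff.2 (sub_ne_zero.2 hP)
    have hQ4 : 1 / 4 ≤ ‖pt h' t - 1‖ := by
      have e1 := Complex.abs_re_le_norm (pt h' t - 1)
      rw [Complex.sub_re, pt_re, Complex.one_re] at e1
      have e2 : 1 / 4 ≤ |1 / 2 + h' - 1| := by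
        rw [abs_of_nonpos (by linarith)]
        linarith
      exact e2.trans e1
    have hPQ : ‖pt x (t + y) - 1‖ ≤ 3 * ‖pt h' t - 1‖ := by
      have e1 : pt x (t + y) - 1 = (pt h' t - 1) + (((x - h' : ℝ) : ℂ) + ((y : ℝ) : ℂ) * I) := by
        unfold pt; push_cast; ring
      have e2 : ‖(((x - h' : ℝ) : ℂ) + ((y : ℝ) : ℂ) * I)‖ ≤ |x - h'| + |y| := by
        refine (norm_add_le _ _).trans ?_
        rw [norm_mul, Complex.norm_I, mul_one, Complex.norm_real, Complex.norm_real, Real.norm_eq_abs, Real.norm_eq_abs]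
      have e3 : |x - h'| ≤ 1 / 4 := by rw [abs_le]; constructor <;> linarith
      have e4 : ‖pt x (t + y) - 1‖ ≤ ‖pt h' t - 1‖ + (|x - h'| + |y|) := by
        rw [e1]
        exact (norm_add_le _ _).trans (by linarith)
      linarith
    -- (E)
    have hE := h4' t h' hh0 (by linarith)
    have hhL : h' * Lam t ≤ ML t := by
      rw [← v0_Lam]
      exact mul_le_mul_of_nonneg_right hhv (Lam_pos t).le
    -- (C)
    have hsh : ∀ u ∈ uIcc t (t + y), |u - t| ≤ |y| := by
      intro u hu
      have := Set.abs_sub_left_of_mem_uIcc hu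
      rwa [add_sub_cancel_left] at this
    have hC := verti hRH h1' hh0 (by linarith) t (t + y) (M := C1 * (Lam t + 1 + 4 * ML t / h')) (by
      intro u hu
      have e1 := hsh u hu
      have e2 : |u - t| ≤ 1 + |t| / 2 := e1.trans hy
      have e3 := Lam_shift_le e2
      have e4 := ML_shift e2
      rw [add_sub_cancel] at e3 e4
      apply mul_le_mul_of_nonneg_left _ hC1.le
      have e5 : ML u / h' ≤ 4 * ML t / h' := div_le_div_of_nonneg_right e4 hh0.le
      linarith)
    rw [add_sub_cancel_left] at hC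
    have hC2 : C1 * (Lam t + 1 + 4 * ML t / h') * |y| ≤ C1 * (5 * ML t + 1) := by
      have f0 : 0 ≤ C1 * (Lam t + 1 + 4 * ML t / h') := by
        have := (Lam_pos t).le
        positivity
      calc C1 * (Lam t + 1 + 4 * ML t / h') * |y| ≤ C1 * (Lam t + 1 + 4 * ML t / h') * h' :=
            mul_le_mul_of_nonneg_left hyh f0
        _ = C1 * (h' * Lam t + h' + 4 * ML t) := by field_simp
        _ ≤ C1 * (5 * ML t + 1) := by
            apply mul_le_mul_of_nonneg_left _ hC1.le
            linarith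
    -- (D)
    have hD := horiz hRH hC1 h1' (t + y) hx hxh (by linarith)
    have hD2 : C1 * (Lam (t + y) * h' + ML (t + y) * Real.log (h' / x)) ≤ C1 * (ML t + 1 + 4 * ML t * q) := by
      apply mul_le_mul_of_nonneg_left _ hC1.le
      have f1 : Lam (t + y) * h' ≤ ML t + 1 := by
        have := mul_le_mul_of_nonneg_right (Lam_shift_le hy) hh0.le
        nlinarith
      have f2 : Real.log (h' / x) ≤ q := by
        rw [hq]
        apply Real.log_le_log (div_pos hh0 hx)
        rw [div_le_iff₀ hx, add_mul, div_mul_cancel₀ _ hx.ne', hh']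
        apply max_le <;> linarith [abs_nonneg y]
      have f3 : 0 ≤ Real.log (h' / x) := by
        apply Real.log_nonneg
        rw [le_div_iff₀ hx, one_mul]
        exact hxh
      have f4 := ML_shift hy
      have f5 : ML (t + y) * Real.log (h' / x) ≤ 4 * ML t * q := mul_le_mul f4 f2 f3 (by linarith)
      linarith
    have hCab := (abs_le.1 (hC.trans hC2)).1
    obtain ⟨E, hEd⟩ : ∃ E : ℝ, E = C1 * (5 * ML t + 1) + C1 * (ML t + 1 + 4 * ML t * q) := ⟨_, rfl⟩
    have hel : el h' t ≤ el x (t + y) + E := by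
      rw [hEd]
      linarith
    have hGz : ‖riemannZeta (pt h' t)‖ * ‖pt h' t - 1‖ ≤ Real.exp E * (‖riemannZeta (pt x (t + y))‖ * ‖pt x (t + y) - 1‖) := by
      rw [zeta_norm hQ, zeta_norm hP, ← el_exp hRH t hh0, ← el_exp hRH (t + y) hx, ← Real.exp_add]
      apply Real.exp_le_exp.2
      linarith
    have hGz2 : ‖riemannZeta (pt h' t)‖ ≤ 3 * Real.exp E * ‖riemannZeta (pt x (t + y))‖ := by
      have f1 : ‖riemannZeta (pt h' t)‖ * ‖pt h' t - 1‖ ≤ (3 * Real.exp E * ‖riemannZeta (pt x (t + y))‖) * ‖pt h' t - 1‖ := by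
        refine hGz.trans ?_
        have f2 : ‖riemannZeta (pt x (t + y))‖ * ‖pt x (t + y) - 1‖ ≤ ‖riemannZeta (pt x (t + y))‖ * (3 * ‖pt h' t - 1‖) :=
          mul_le_mul_of_nonneg_left hPQ hPpos.le
        calc Real.exp E * (‖riemannZeta (pt x (t + y))‖ * ‖pt x (t + y) - 1‖) ≤
              Real.exp E * (‖riemannZeta (pt x (t + y))‖ * (3 * ‖pt h' t - 1‖)) :=
              mul_le_mul_of_nonneg_left f2 (Real.exp_pos _).le
          _ = _ := by ring
      exact le_of_mul_le_mul_right f1 hQp
    have e3 : 3 * C4 ≤ Real.exp (3 * C4) := by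
      have := Real.add_one_le_exp (3 * C4)
      linarith
    calc ‖riemannZeta (cl t)‖ ≤ C4 * Real.exp (h' * Lam t) * ‖riemannZeta (pt h' t)‖ := hE
      _ ≤ C4 * Real.exp (ML t) * (3 * Real.exp E * ‖riemannZeta (pt x (t + y))‖) := by
          apply mul_le_mul _ hGz2 (norm_nonneg _) (by positivity)
          exact mul_le_mul_of_nonneg_left (Real.exp_le_exp.2 hhL) hC4.le
      _ = (3 * C4) * Real.exp (ML t) * Real.exp E * ‖riemannZeta (pt x (t + y))‖ := by ring
      _ ≤ Real.exp (3 * C4) * Real.exp (ML t) * Real.exp E * ‖riemannZeta (pt x (t + y))‖ := by gcongr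
      _ = Real.exp (3 * C4 + ML t + E) * ‖riemannZeta (pt x (t + y))‖ := by
          rw [Real.exp_add, Real.exp_add]
      _ ≤ _ := by
          apply mul_le_mul_of_nonneg_right _ hPpos.le
          apply Real.exp_le_exp.2
          rw [hEd]
          have f1 : 0 ≤ ML t * q := by positivity
          have f2 : 3 * C4 ≤ 3 * C4 * (ML t * q) := le_mul_of_one_le_right (by positivity) hMq
          have f3 : C1 * (6 * ML t + 2) ≤ C1 * (14 * (ML t * q)) := mul_le_mul_of_nonneg_left (by linarith) hC1.le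
          have f4 : 0 ≤ Cu * (ML t * q) := by positivity
          have f5 : 0 ≤ Cl * (ML t * q) := by positivity
          have f6 : C1 * (5 * ML t + 1) + C1 * (ML t + 1 + 4 * ML t * q) = C1 * (6 * ML t + 2) + 4 * (C1 * (ML t * q)) := by ring
          rw [f6]
          have f7 : (3 * C4 + 2 + 18 * C1 + 2 * Cu + 28 * Cl) * ML t * q =
              3 * C4 * (ML t * q) + 2 * (ML t * q) + C1 * (14 * (ML t * q)) + 4 * (C1 * (ML t * q)) + 2 * (Cu * (ML t * q)) +
                28 * (Cl * (ML t * q)) := by ring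
          rw [f7]
          linarith
  · -- far
    have e1 := hu t
    have e2 := hl (t + y) x hx hx1
    have f1 := ML_shift hy
    have f2 := v0_shift hy
    have f3 : 1 + v0 (t + y) / x ≤ 16 * (2 + |y| / x) := by
      have g1 : v0 (t + y) ≤ 8 * max x |y| := by linarith
      have g2 : max x |y| ≤ x + |y| := max_le (by linarith [abs_nonneg y]) (by linarith)
      have g3 : v0 (t + y) / x ≤ 8 * (x + |y|) / x := div_le_div_of_nonneg_right (by linarith) hx.le
      have g4 : 8 * (x + |y|) / x = 8 + 8 * (|y| / x) := by field_simp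
      linarith
    have f4 : Real.log (1 + v0 (t + y) / x) ≤ 5 * q := by
      have g0 : 0 ≤ v0 (t + y) / x := div_nonneg (v0_pos _).le hx.le
      have g1 := Real.log_le_log (by linarith) f3
      rw [Real.log_mul (by norm_num) (by positivity), ← hq] at g1
      have g2 : Real.log 16 = 4 * Real.log 2 := by
        rw [show (16 : ℝ) = 2 ^ 4 by norm_num, Real.log_pow]; norm_num
      linarith
    have f5 : Cl * ML (t + y) * (1 + Real.log (1 + v0 (t + y) / x)) ≤ 28 * (Cl * (ML t * q)) := by
      have g0 : 0 ≤ Real.log (1 + v0 (t + y) / x) := by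
        apply Real.log_nonneg
        have : 0 ≤ v0 (t + y) / x := div_nonneg (v0_pos _).le hx.le
        linarith
      calc Cl * ML (t + y) * (1 + Real.log (1 + v0 (t + y) / x)) ≤ Cl * (4 * ML t) * (7 * q) := by
            apply mul_le_mul (mul_le_mul_of_nonneg_left f1 hCl.le) _ (by linarith) (by positivity)
            linarith
        _ = _ := by ring
    calc ‖riemannZeta (cl t)‖ ≤ Real.exp (Cu * ML t) * 1 := by rw [mul_one]; exact e1
      _ ≤ Real.exp (Cu * ML t) * (Real.exp (28 * (Cl * (ML t * q))) * ‖riemannZeta (pt x (t + y))‖) := by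
          apply mul_le_mul_of_nonneg_left _ (Real.exp_pos _).le
          have g1 : Real.exp (-(28 * (Cl * (ML t * q)))) ≤ ‖riemannZeta (pt x (t + y))‖ :=
            (Real.exp_le_exp.2 (neg_le_neg f5)).trans e2
          calc (1 : ℝ) = Real.exp (28 * (Cl * (ML t * q))) * Real.exp (-(28 * (Cl * (ML t * q)))) := by
                rw [← Real.exp_add, add_neg_cancel, Real.exp_zero]
            _ ≤ _ := mul_le_mul_of_nonneg_left g1 (Real.exp_pos _).le
      _ = Real.exp (Cu * ML t + 28 * (Cl * (ML t * q))) * ‖riemannZeta (pt x (t + y))‖ := by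
          rw [Real.exp_add, mul_assoc]
      _ ≤ _ := by
          apply mul_le_mul_of_nonneg_right _ hPpos.le
          apply Real.exp_le_exp.2
          have f6 : Cu * ML t ≤ Cu * (2 * (ML t * q)) := mul_le_mul_of_nonneg_left hMq2 hCu.le
          have f7 : (3 * C4 + 2 + 18 * C1 + 2 * Cu + 28 * Cl) * ML t * q =
              3 * C4 * (ML t * q) + 2 * (ML t * q) + 18 * (C1 * (ML t * q)) + Cu * (2 * (ML t * q)) +
                28 * (Cl * (ML t * q)) := by ring
          rw [f7]
          have f8 : 0 ≤ 3 * C4 * (ML t * q) := by positivity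
          have f9 : 0 ≤ C1 * (ML t * q) := by positivity
          have f10 : 0 ≤ ML t * q := by positivity
          linarith

end Pool.Agent.Q162.BD
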